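import Pool.Agent.Helper25K9.PC.RelOp
import Pool.Agent.Helper25K9.PC.EffOp

set_option autoImplicit false

open Finset Polynomial Pool.Agent.W432.WB Pool.Agent.W432.HK Pool.Agent.Y227.SO
open Pool.Agent.R340.SY (expo)
open Pool.Agent.Helper25K9.PC

/-!
# Bounded relations among the exponents of operators of any order

Let `L` be a Fuchsian operator of order `n ≥ 1`, reducible or not, with rational exponents `e x l`, of
arbitrary denominators, any number of singular points `x` and arbitrary accessory parameters. We prove
that if the reductions of `L` have full bases of solutions for almost all primes (or only for infinitely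
many primes in every residue class modulo a common denominator), then for every point `j` **each sum
`∑ x, e x (κ x)` is, up to a rational number of small denominator, a combination of the differences at the
points other than `j` with integral coefficients of absolute values at most `4 n (n - 1) k`**, where `k`
is the number of these points with a nonintegral difference, unless a similar combination of these
differences alone is a nonintegral rational number of small denominator; small denominators are those
below an explicit bound in terms of `n` and `k`. If the denominators of the differences and of the sums are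
`1` or a prime number, or have no small prime factor, then each such sum is exactly, modulo the
integers, such a combination. So for every point `j` each exponent at `j` is then determined modulo the
integers, up to boundedly many possibilities, by the exponents at the other points; the bound on the
coefficients is linear in the number of points. Grothendieck's conjecture holds for all the other
operators.

Proof. The multiples `a e`, for `a` prime to the denominators (for all `a` in the case of a prime
denominator), satisfy the inequalities for line subbundles of semistable bundles of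
degree zero. A line bundle with weights close to the exponents at the points other than `j` shows that
the distance of `a ∑ x, e x (κ x)` from the integers is at most `n` times the sum of the distances of
the `a (e x l - e x (κ x))`, `x ≠ j`, from the integers. Hence `1 - cos` of the first angle is bounded
by a multiple of the sum of the `1 - cos` of the other angles. Average over these `a`
with weights which are the squares of the absolute values of the Fourier transform of a product of sine
kernels in the directions of the differences: these are almost invariant under the translations by the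
differences, in the strong sense of a pointwise inequality, which is not affected by relations among
them. By the evaluation of Ramanujan sums at units only frequencies of small order contribute to the
averages. If there is no relation the average of the left side is about one, but that of the right side is
less.
-/

namespace Pool.Agent.Results.MP_aa40d3_nt.BoundedRelations

/-- Let `L = ∑ b k ∂ ^ k` be an operator of order `n ≥ 1` with integral polynomial coefficients,
Fuchsian, with finite singular points among the distinct algebraic numbers `α j`, `j = 1, …, m`, and with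
the rational exponents `e x l = expo lam phi x l` at the `m + 1` points `x` (the finite points `some j` and
infinity, `none`). `L` may be reducible, and the accessory parameters are arbitrary.

Let `Y` be a set of points such that the `e x l - e x l'` are integers for all `x` not in `Y`, let `j` be
one of the points, let `r` be `n - 1` times the number of the elements of `Y` other than `j`, and let
`B = 200 (4 n r + 1) ^ (2 r + 4)`.

(1) For exponents with arbitrary denominators, one of the following holds.

(A) For every common denominator `N` of the exponents there is an `a` prime to `N` such that for all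
large primes `p` with `a p = -1` modulo `N` the reduction of `L` modulo `p` does not have a full basis
of rational solutions; in particular the open implication of the conjecture holds for `L`.

(B) For every choice `κ` of one exponent at each point there are integers `ρ x l` of absolute values at
most `4 n r` such that the denominator of `∑ x, e x (κ x) - ∑ ρ x l (e x l - e x (κ x))` is less
than `B`, or there are integers `ρ x l` of absolute values at most `4 n r + 1` such that
`∑ ρ x l (e x l - e x (κ x))` is not an integer, but has a denominator less than `B`, the sums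
with `ρ x l` being over the points `x` of `Y` other than `j` and over all `l`.

(2) Let `q` be a prime number, or an integer without prime factors less than `B`, such that
`q (e x l - e x l')` and `q ∑ x, e x (κ x)` are integers (for all points `x` and all `l`, `l'`, and for
all choices `κ` of one exponent at each point). Then (A) holds, or for every choice `κ`
there are integers `ρ x l` of absolute values at
most `4 n r` such that `∑ x, e x (κ x) - ∑ ρ x l (e x l - e x (κ x))` is an integer. -/
theorem result {m n : ℕ} (hm : 1 ≤ m) (hn : 1 ≤ n) (b : Fin (n + 1) → ℤ[X])
    (α : Fin m → AlgebraicClosure ℚ) (lam : Fin m → Fin n → ℚ) (phi : Fin n → ℚ)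
    (hF : FuchsianWith b α lam phi) (e : Option (Fin m) → Fin n → ℚ)
    (he : ∀ x l, e x l = expo lam phi x l)
    (Y : Finset (Option (Fin m))) (hY : ∀ x, x ∉ Y → ∀ l l', (e x l - e x l').den = 1)
    (j : Option (Fin m)) (r B : ℕ) (hr : r = (n - 1) * (Y.erase j).card)
    (hB : B = 200 * (4 * n * r + 1) ^ (2 * r + 4)) :
    (((∀ N, CommonDen lam phi N → BadClass b N) ∧ (Cond b → FullAlg b)) ∨
      ∀ κ : Option (Fin m) → Fin n,
        (∃ ρ : Option (Fin m) → Fin n → ℤ, (∀ x l, |ρ x l| ≤ 4 * n * r) ∧
          (∑ x, e x (κ x) - ∑ x ∈ Y.erase j, ∑ l, ρ x l * (e x l - e x (κ x))).den < B) ∨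
        ∃ ρ : Option (Fin m) → Fin n → ℤ, (∀ x l, |ρ x l| ≤ 4 * n * r + 1) ∧
          1 < (∑ x ∈ Y.erase j, ∑ l, ρ x l * (e x l - e x (κ x))).den ∧
          (∑ x ∈ Y.erase j, ∑ l, ρ x l * (e x l - e x (κ x))).den < B) ∧
    ∀ q : ℕ, (q.Prime ∨ ∀ p : ℕ, p.Prime → p ∣ q → B ≤ p) →
      (∀ x l l', ((q : ℚ) * (e x l - e x l')).den = 1) →
      (∀ κ : Option (Fin m) → Fin n, ((q : ℚ) * ∑ x, e x (κ x)).den = 1) →
      (((∀ N, CommonDen lam phi N → BadClass b N) ∧ (Cond b → FullAlg b)) ∨
        ∀ κ : Option (Fin m) → Fin n, ∃ ρ : Option (Fin m) → Fin n → ℤ,
          (∀ x l, |ρ x l| ≤ 4 * n * r) ∧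
          (∑ x, e x (κ x) - ∑ x ∈ Y.erase j, ∑ l, ρ x l * (e x l - e x (κ x))).den = 1) := by
  classical
  by_cases h : ∀ N, CommonDen lam phi N → BadClass b N
  · have hA : (∀ N, CommonDen lam phi N → BadClass b N) ∧ (Cond b → FullAlg b) := by
      refine ⟨h, fun hc => ?_⟩
      obtain ⟨N, hN⟩ := exists_commonDen lam phi
      obtain ⟨a, ha, P₀, hP₀⟩ := h N hN
      obtain ⟨p, hp1, hp2, hp3, hp4⟩ := cond_infinite hc hN.1 ha P₀
      exact absurd hp4 (hP₀ p hp1 hp2 hp3)
    exact ⟨Or.inl hA, fun _ _ _ _ => Or.inl hA⟩
  push Not at h
  obtain ⟨N, hN, hbad⟩ := h
  obtain ⟨-, H⟩ := lineIneq_of_good hm hn hF hN hbad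
  have hee : e = expo lam phi := by
    funext x l
    exact he x l
  rw [← hee] at H
  have hden : ∀ x l, ∃ z : ℤ, (N : ℚ) * e x l = z := by
    intro x l
    rw [he]
    rcases x with _ | x
    · obtain ⟨z, hz⟩ := hN.2.2 l
      exact ⟨-z, by simp only [expo]; push_cast; rw [← hz]; ring⟩
    · exact hN.2.1 x l
  have hY' : ∀ x, x ∉ Y → ∀ l l', ∃ z : ℤ, e x l - e x l' = z :=
    fun x hx l l' => (den_one_iff _).1 (hY x hx l l')
  have hBr : B = rb n r := hB
  have gen := fun κ => effective_relation hn e hN.1 hden H Y hY' j hr κ
  rw [← hBr] at gen
  refine ⟨Or.inr gen, fun q hq h1 h2 => Or.inr fun κ => ?_⟩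
  have g1 : ∀ x l l', ∃ z : ℤ, (q : ℚ) * (e x l - e x l') = z :=
    fun x l l' => (den_one_iff _).1 (h1 x l l')
  have g2 : ∀ κ : Option (Fin m) → Fin n, ∃ z : ℤ, (q : ℚ) * ∑ x, e x (κ x) = z :=
    fun κ => (den_one_iff _).1 (h2 κ)
  rcases hq with hq | hq
  · obtain ⟨ρ, hρ1, hρ2⟩ := bounded_relation hn e hq.pos
      (lineIneq_all hn e hq hN.1 H g1 g2) g1 g2 Y hY' j κ
    refine ⟨ρ, fun x l => (hρ1 x l).trans (le_of_eq ?_), (den_one_iff _).2 hρ2⟩
    rw [hr]
    push_cast
    ring
  · -- denominators of divisors of `q` which are less than `B`
    have hq0 : q ≠ 0 := by
      rintro rfl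
      have h3 := hq 2 Nat.prime_two (dvd_zero 2)
      have h4 : 200 ≤ B := by
        rw [hB]
        have := Nat.one_le_pow (2 * r + 4) (4 * n * r + 1) (by omega)
        omega
      omega
    have hsmall : ∀ y : ℚ, (∃ z : ℤ, (q : ℚ) * y = z) → y.den < B → y.den = 1 := by
      rintro y ⟨z, hz⟩ hy
      by_contra hne
      obtain ⟨p, hp, hpd⟩ := Nat.exists_prime_and_dvd hne
      have h3 : y.den ∣ q := by
        have h4 : y = (z : ℚ) / ((q : ℤ) : ℚ) := by
          rw [eq_div_iff (by exact_mod_cast hq0), ← hz]
          push_cast
          ring
        have h5 := Rat.den_dvd z (q : ℤ)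
        rw [Rat.divInt_eq_div, ← h4] at h5
        exact_mod_cast h5
      have h4 := hq p hp (hpd.trans h3)
      have h5 := Nat.le_of_dvd y.den_pos hpd
      omega
    have hint : ∀ ρ : Option (Fin m) → Fin n → ℤ, ∃ z : ℤ,
        (q : ℚ) * ∑ x ∈ Y.erase j, ∑ l, ρ x l * (e x l - e x (κ x)) = z := by
      intro ρ
      choose z hz using fun x l => g1 x l (κ x)
      refine ⟨∑ x ∈ Y.erase j, ∑ l, ρ x l * z x l, ?_⟩
      push_cast
      rw [mul_sum]
      refine sum_congr rfl fun x _ => ?_
      rw [mul_sum]
      refine sum_congr rfl fun l _ => ?_
      rw [← hz x l]
      ring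
    rcases gen κ with ⟨ρ, hρ1, hρ2⟩ | ⟨ρ, -, hρ2, hρ3⟩
    · refine ⟨ρ, hρ1, hsmall _ ?_ hρ2⟩
      obtain ⟨z, hz⟩ := hint ρ
      obtain ⟨w, hw⟩ := g2 κ
      exact ⟨w - z, by push_cast; rw [mul_sub, hz, hw]⟩
    · have := hsmall _ (hint ρ) hρ3
      omega

end Pool.Agent.Results.MP_aa40d3_nt.BoundedRelations
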