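import Pool.Agent.Helper25K9.PC.Cop

set_option autoImplicit false

open Finset Polynomial Pool.Agent.W432.WB Pool.Agent.W432.HK Pool.Agent.Y227.SO Pool.Agent.Y227.SS
open Pool.Agent.R340.SY (expo fuchs_int)
open Pool.Agent.Helper25K9.PC

/-!
# Irreducible operators of any order: singular points with coprime denominators

Let `L` be an irreducible Fuchsian operator of order `n ≥ 2` with rational exponents, any number of
singular points and arbitrary accessory parameters. Write the exponents at the point `x`, modulo the
integers, as `u x + c x l δ x` with integers `c x l ≥ 0` (for an operator of order two one can take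
`c = (0, 1)` and one of the two differences of exponents as `δ x`), and let `d x` be the denominator of
`δ x` and `C x = ∑ l, c x l`. Assume that for any two points the denominators `d x`, `d y` are coprime or
`δ x ≡ δ y` modulo the integers. We prove Grothendieck's conjecture for `L` if the sum of the `C x / d x`
over the points with `d x ≠ 1` is at most one and if for one point `j` with `d j ≠ 1` and the sum `K` of
the `C x` over all `x` with `δ x ≡ δ j` there is a prime number dividing `n` and `d j` but not `K`; or if
`d j` is prime to `2 n`, `K` is not divisible by `n` and the sum of the `C x / d x` is at most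
`1 - K / d j`.

For example, for an irreducible operator of order two whose nonintegral differences of exponents have
pairwise coprime denominators `d 1 < … < d k`, the conjecture holds if `∑ 1 / d i + 1 / d k ≤ 1` (and
if `∑ 1 / d i ≤ 1` in case one of the `d i` is even): the number `k` of these points is not bounded.

Proof. There is a conjugate `a` such that `a δ x ≡ 1 / d x` for all `x`. If the reductions have full
bases of solutions for infinitely many primes in every class, then the conjugate exponents are the
weights of a stable parabolic bundle of degree zero (a starting result). All of them lie on arcs of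
total length at most one, starting at the points `a u x`, and a suitable line bundle shows that an
integer `T`, which is `n a ∑ u x` plus the sum of the lengths, is divisible by `n`. We find two such
conjugates for which the numbers `T` are not congruent modulo `n`.
-/

namespace Pool.Agent.Results.MP_aa40d3_nt.CoprimeDenominators

/-- Let `L = ∑ b k ∂ ^ k` be an operator of order `n ≥ 2` with integral polynomial coefficients,
Fuchsian, with finite singular points among the distinct algebraic numbers `α j`, `j = 1, …, m`, with
the rational exponents `expo lam phi x l` at the `m + 1` points `x` (the finite points `some j` and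
infinity, `none`), and irreducible over the algebraic numbers. Let `u x` and `δ x` be rational numbers
and `c x l` nonnegative integers such that the exponents at `x` are, modulo the integers, the numbers
`u x + c x l δ x`. Assume that for all `x`, `y` the denominators of `δ x` and `δ y` are coprime or
`δ x - δ y` is an integer. Let `j` be a point such that `δ j` is not an integer and let `K` be the sum
of the `c x l` over all `x` with `δ x - δ j` an integer and all `l`. Assume that

(i) the denominator of `δ j` is prime to `2 n`, `K` is not divisible by `n`, and the sum of the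
`(∑ l, c x l) / (δ x).den` over all `x` for which `δ x` is not an integer is at most
`1 - K / (δ j).den`; or

(ii) this sum is at most `1` and there is a prime number which divides `n` and the denominator of `δ j`
and does not divide `K`.

Then for every common denominator `N` of the exponents there is an `a` prime to `N` such that for all
large primes `p` with `a p = -1` modulo `N` the reduction of `L` modulo `p` does not have a full basis
of rational solutions. In particular the open implication of the conjecture holds for `L`. -/
theorem result {m n : ℕ} (hm : 1 ≤ m) (hn : 2 ≤ n) (b : Fin (n + 1) → ℤ[X])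
    (α : Fin m → AlgebraicClosure ℚ) (lam : Fin m → Fin n → ℚ) (phi : Fin n → ℚ)
    (hF : FuchsianWith b α lam phi) (hirr : ¬ Reducible b) (u δ : Option (Fin m) → ℚ)
    (c : Option (Fin m) → Fin n → ℕ)
    (hc : ∀ x l, (expo lam phi x l - (u x + c x l * δ x)).den = 1)
    (hP : ∀ x y, (δ x).den.Coprime (δ y).den ∨ (δ x - δ y).den = 1) (j : Option (Fin m))
    (hj : (δ j).den ≠ 1) (K : ℕ) (hK : K = ∑ x with (δ x - δ j).den = 1, ∑ l, c x l)
    (hcase : ((δ j).den.Coprime (2 * n) ∧ ¬ n ∣ K ∧
        ∑ x with (δ x).den ≠ 1, (∑ l, (c x l : ℚ)) / (δ x).den + K / (δ j).den ≤ 1) ∨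
      (∃ p : ℕ, p.Prime ∧ p ∣ n ∧ p ∣ (δ j).den ∧ ¬ p ∣ K ∧
        ∑ x with (δ x).den ≠ 1, (∑ l, (c x l : ℚ)) / (δ x).den ≤ 1)) :
    (∀ N, CommonDen lam phi N → BadClass b N) ∧ (Cond b → FullAlg b) := by
  classical
  have key : ∀ N, CommonDen lam phi N → BadClass b N := by
    intro N hN
    by_contra hbad
    obtain ⟨F, hFu⟩ := fuchs_int hm hn hF
    have hg : ∀ x l, ∃ g : ℤ, expo lam phi x l - (u x + c x l * δ x) = g :=
      fun x l => (den_one_iff _).1 (hc x l)
    choose g hg using hg
    obtain ⟨a, ha, s, z, hs, hz, hle, hnd⟩ := two_conj δ hP (fun x => ∑ l, c x l) hn hN.1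
      (F - ∑ x, ∑ l, g x l) j hj K hK (by
        rcases hcase with ⟨h1, h2, h3⟩ | ⟨p, h1, h2, h3, h4, h5⟩
        · exact Or.inl ⟨h1, h2, by push_cast; exact h3⟩
        · exact Or.inr ⟨p, h1, h2, h3, h4, by push_cast; exact h5⟩)
    have hst : StableWeights ℂ (fun j l => (a : ℝ) * lam j l) (fun l => (a : ℝ) * phi l) := by
      by_contra hst
      exact hbad ⟨a, ha, bad_class (by omega) (by omega) hF hN a (Or.inr ⟨hirr, hst⟩)⟩
    have h1 := arcs_dvd hn a F hFu hst u (fun x l => c x l * s x)
      (fun x l => c x l * z x + a * g x l) (fun x l => mul_nonneg (Nat.cast_nonneg _) (hs x))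
      (fun x l => by
        have e1 : expo lam phi x l - u x = c x l * δ x + g x l := by
          rw [← hg]; ring
        rw [e1, mul_add, show (a : ℚ) * (c x l * δ x) = c x l * (a * δ x) by ring, hz]
        push_cast
        ring) (by
        simp only [← sum_mul]
        push_cast at hle
        exact hle)
    apply hnd
    have e : a * (F - ∑ x, ∑ l, g x l) - ∑ x, ((∑ l, c x l : ℕ) : ℤ) * z x =
        a * F - ∑ x, ∑ l, ((c x l : ℤ) * z x + a * g x l) := by
      simp only [sum_add_distrib, ← mul_sum, ← sum_mul]
      push_cast
      ring
    rw [e]
    exact h1
  refine ⟨key, fun hcond => ?_⟩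
  obtain ⟨N, hN⟩ := exists_commonDen lam phi
  obtain ⟨a, ha, P₀, hP₀⟩ := key N hN
  obtain ⟨p, hp1, hp2, hp3, hp4⟩ := cond_infinite hcond hN.1 ha P₀
  exact absurd hp4 (hP₀ p hp1 hp2 hp3)

end Pool.Agent.Results.MP_aa40d3_nt.CoprimeDenominators
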