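import Pool.Agent.Helper25K9.PC.Deg

set_option autoImplicit false

open Finset Polynomial Pool.Agent.W432.WB Pool.Agent.W432.HK Pool.Agent.Y227.SO
open Pool.Agent.R340.SY (expo)
open Pool.Agent.Helper25K9.PC

/-!
# Degenerate conjugates of the exponents of operators of any order

Let `L` be a Fuchsian operator of order `n ≥ 1`, reducible or not, with rational exponents `e x l`,
any number of singular points `x` and arbitrary accessory parameters. If the reductions have full bases
of solutions for almost all primes (or only for infinitely many primes in every residue class modulo a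
common denominator `N`), then for `a` prime to `N` the conjugates `a e x l` are the weights of semistable
parabolic bundles of degree zero (a starting result), hence satisfy the inequalities `LineIneq` for line
subbundles. We show that these inequalities persist for the **degenerate** conjugates, `a` not prime
to `N`: if the denominators of the differences are divisors of `q₀ q`, `q₀` prime to `q`, and all the
prime factors of `q` are large compared with `n`, `q₀` and the number `k` of the points whose differences
have denominators not dividing `q₀` (explicitly, greater than `(n (k + 1) q₀ + 1) ^ (k (n - 1) + 1)`), then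
the inequalities hold for all `a` which are prime to `q₀` and divisible by `q`. So the parts of the
exponents with the small denominator `q₀` satisfy them independently of the other parts. If these
parts are different modulo the integers at one point only, or at two points without being opposite to one
another, then the reductions do not have full bases of solutions for all large primes of some residue
class, and Grothendieck's conjecture holds for `L`.

Proof. Simultaneous approximation gives a small `c`, so prime to `q`, such that the multiples by `c` of the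
parts with denominator `q` are close to integers; the inequality for a number `a` prime to `N`, congruent
to `c` modulo `q` and to `a₀` modulo `q₀`, and line bundles with weights in general position with respect
to the part with denominator `q₀`, perturbed by `1 / K`, give the inequality for the degenerate conjugate
up to an error less than one, and both sides are integers. For two points average over the cuts.
-/

namespace Pool.Agent.Results.MP_aa40d3_nt.DegenerateConjugates

/-- Let `L = ∑ b k ∂ ^ k` be an operator of order `n ≥ 1` with integral polynomial coefficients,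
Fuchsian, with finite singular points among the distinct algebraic numbers `α j`, `j = 1, …, m`, and with
the rational exponents `e x l = expo lam phi x l` at the `m + 1` points `x` (the finite points `some j` and
infinity, `none`). `L` may be reducible, and the accessory parameters are arbitrary.

Let `q₀` and `q` be coprime, such that `q₀ q (e x l - e x l')` and `q₀ q ∑ x, e x (κ x)` are integers (for
all points `x` and all `l`, `l'`, and for all choices `κ` of one exponent at each point). Let `Y` be a set
of points such that the `q₀ (e x l - e x l')` are integers for all `x` not in `Y`, and assume that all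
prime factors of `q` are greater than `(n (k + 1) q₀ + 1) ^ (k (n - 1) + 1)`, `k = #Y`. Then one of the
following holds.

(A) For every common denominator `N` of the exponents there is an `a` prime to `N` such that for all
large primes `p` with `a p = -1` modulo `N` the reduction of `L` modulo `p` does not have a full basis
of rational solutions; in particular the open implication of the conjecture holds for `L`.

(B) (1) For every integer `a` which is divisible by `q` and prime to `q₀` the numbers `a e x l` satisfy
`LineIneq`: for all rational `β x` with a positive sum, `n` plus the sum of the integral parts of all the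
`a e x l - β x` is at most the sum of all the `a e x l`. (2) If the `q (e x l - e x l')` are integers
for all points `x` other than two points `x₀`, `x₁`, then the numbers `q (e x₀ l + ∑ e x (κ x))`,
the sum being over the other points, and the numbers `-q e x₁ l` are the same modulo the integers, with
multiplicities. (3) If the `q (e x l - e x l')` are integers for all points `x` other than one point
`x₀`, then the `q ∑ x, e x (κ x)` are integers for all `κ`. -/
theorem result {m n : ℕ} (hm : 1 ≤ m) (hn : 1 ≤ n) (b : Fin (n + 1) → ℤ[X])
    (α : Fin m → AlgebraicClosure ℚ) (lam : Fin m → Fin n → ℚ) (phi : Fin n → ℚ)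
    (hF : FuchsianWith b α lam phi) (e : Option (Fin m) → Fin n → ℚ)
    (he : ∀ x l, e x l = expo lam phi x l) (q₀ q : ℕ) (hq₀ : 0 < q₀) (hq : 0 < q)
    (hco : q₀.Coprime q) (h1 : ∀ x l l', (((q₀ * q : ℕ) : ℚ) * (e x l - e x l')).den = 1)
    (h2 : ∀ κ : Option (Fin m) → Fin n, (((q₀ * q : ℕ) : ℚ) * ∑ x, e x (κ x)).den = 1)
    (Y : Finset (Option (Fin m))) (hY : ∀ x, x ∉ Y → ∀ l l', ((q₀ : ℚ) * (e x l - e x l')).den = 1)
    (hbig : ∀ p : ℕ, p.Prime → p ∣ q →
      (n * (Y.card + 1) * q₀ + 1) ^ (Y.card * (n - 1) + 1) < p) :
    ((∀ N, CommonDen lam phi N → BadClass b N) ∧ (Cond b → FullAlg b)) ∨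
    ((∀ a : ℤ, IsCoprime a (q₀ : ℤ) → (q : ℤ) ∣ a → LineIneq fun x l => (a : ℚ) * e x l) ∧
      (∀ x₀ x₁, x₀ ≠ x₁ →
        (∀ x, x ≠ x₀ → x ≠ x₁ → ∀ l l', ((q : ℚ) * (e x l - e x l')).den = 1) →
        ∀ (κ : Option (Fin m) → Fin n) (c : ℚ),
          (univ.filter fun l =>
            (q * (e x₀ l + ∑ x ∈ (univ.erase x₀).erase x₁, e x (κ x)) - c).den = 1).card =
          (univ.filter fun l => (-(q * e x₁ l) - c).den = 1).card) ∧
      ∀ x₀, (∀ x, x ≠ x₀ → ∀ l l', ((q : ℚ) * (e x l - e x l')).den = 1) →
        ∀ κ : Option (Fin m) → Fin n, ((q : ℚ) * ∑ x, e x (κ x)).den = 1) := by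
  classical
  by_cases h : ∀ N, CommonDen lam phi N → BadClass b N
  · refine Or.inl ⟨h, fun hc => ?_⟩
    obtain ⟨N, hN⟩ := exists_commonDen lam phi
    obtain ⟨a, ha, P₀, hP₀⟩ := h N hN
    obtain ⟨p, hp1, hp2, hp3, hp4⟩ := cond_infinite hc hN.1 ha P₀
    exact absurd hp4 (hP₀ p hp1 hp2 hp3)
  right
  push Not at h
  obtain ⟨N, hN, hbad⟩ := h
  obtain ⟨⟨F, hFs⟩, H⟩ := lineIneq_of_good hm hn hF hN hbad
  have hee : e = expo lam phi := by
    funext x l
    exact he x l
  have key := deg_core (e := e) (F := F) hn hN.1 hq₀ hq hco (by rw [hee]; exact hFs)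
    (fun x l l' => (den_one_iff _).1 (h1 x l l')) (fun κ => (den_one_iff _).1 (h2 κ)) Y
    (fun x hx l l' => (den_one_iff _).1 (hY x hx l l')) hbig (by rw [hee]; exact H)
  have hcoz : IsCoprime (q : ℤ) (q₀ : ℤ) := (Nat.isCoprime_iff_coprime.2 hco).symm
  have hq1 := key q hcoz (dvd_refl _)
  have hsum : ∀ κ : Option (Fin m) → Fin n, ∃ z : ℤ,
      (q₀ : ℚ) * ∑ x, ((q : ℤ) : ℚ) * e x (κ x) = z := by
    intro κ
    obtain ⟨z, hz⟩ := (den_one_iff _).1 (h2 κ)
    refine ⟨z, ?_⟩
    rw [← hz, ← mul_sum]
    push_cast
    ring
  have two : ∀ x₀ x₁, x₀ ≠ x₁ →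
      (∀ x, x ≠ x₀ → x ≠ x₁ → ∀ l l', ((q : ℚ) * (e x l - e x l')).den = 1) →
      ∀ (κ : Option (Fin m) → Fin n) (c : ℚ),
        (univ.filter fun l =>
          (q * (e x₀ l + ∑ x ∈ (univ.erase x₀).erase x₁, e x (κ x)) - c).den = 1).card =
        (univ.filter fun l => (-(q * e x₁ l) - c).den = 1).card := by
    intro x₀ x₁ hne hd κ c
    have h3 := two_point (fun x l => ((q : ℤ) : ℚ) * e x l) hq1 hq₀ hsum hne
      (fun x g1 g2 l l' => by
        obtain ⟨z, hz⟩ := (den_one_iff _).1 (hd x g1 g2 l l')
        exact ⟨z, by push_cast; rw [← hz]; ring⟩) κ c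
    have a1 : (univ.filter fun l =>
          (q * (e x₀ l + ∑ x ∈ (univ.erase x₀).erase x₁, e x (κ x)) - c).den = 1) =
        univ.filter fun l => (((q : ℤ) : ℚ) * e x₀ l + ∑ x ∈ (univ.erase x₀).erase x₁,
          ((q : ℤ) : ℚ) * e x (κ x) - c).den = 1 := by
      refine filter_congr fun l _ => ?_
      rw [← mul_sum, ← mul_add]
      push_cast
      rfl
    have a2 : (univ.filter fun l => (-(q * e x₁ l) - c).den = 1) =
        univ.filter fun l => (((q : ℤ) : ℚ) * e x₁ l + c).den = 1 := by
      refine filter_congr fun l _ => ?_
      rw [← Rat.neg_den (((q : ℤ) : ℚ) * e x₁ l + c)]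
      push_cast
      rw [neg_add, sub_eq_add_neg]
    rw [a1, a2]
    exact h3
  refine ⟨key, two, fun x₀ hd κ => ?_⟩
  obtain ⟨x₁, hne⟩ : ∃ x₁ : Option (Fin m), x₀ ≠ x₁ := by
    cases x₀ with
    | none => exact ⟨some ⟨0, hm⟩, by simp⟩
    | some j => exact ⟨none, by simp⟩
  have h3 := two x₀ x₁ hne (fun x g1 _ => hd x g1) κ (-(q * e x₁ (κ x₁)))
  have h4 : (univ.filter fun l => (-(q * e x₁ l) - -(q * e x₁ (κ x₁))).den = 1) = univ := by
    refine filter_true_of_mem fun l _ => ?_
    obtain ⟨z, hz⟩ := (den_one_iff _).1 (hd x₁ hne.symm (κ x₁) l)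
    rw [den_one_iff]
    exact ⟨z, by rw [← hz]; ring⟩
  rw [h4] at h3
  have h5 := (card_eq_iff_eq_univ _).1 h3
  have h5' : κ x₀ ∈ univ.filter fun l =>
      (q * (e x₀ l + ∑ x ∈ (univ.erase x₀).erase x₁, e x (κ x)) - -(q * e x₁ (κ x₁))).den = 1 := by
    rw [h5]
    exact mem_univ _
  have h6 := (mem_filter.1 h5').2
  have h7 : ∑ x, e x (κ x) = e x₀ (κ x₀) + (e x₁ (κ x₁) +
      ∑ x ∈ (univ.erase x₀).erase x₁, e x (κ x)) := by
    rw [add_sum_erase _ (fun x => e x (κ x)) (mem_erase.2 ⟨hne.symm, mem_univ _⟩),
      add_sum_erase univ (fun x => e x (κ x)) (mem_univ x₀)]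
  rw [den_one_iff] at h6 ⊢
  obtain ⟨z, hz⟩ := h6
  exact ⟨z, by rw [← hz, h7]; ring⟩

end Pool.Agent.Results.MP_aa40d3_nt.DegenerateConjugates
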