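import Pool.Agent.Helper25K9.PC.IrrMain
import Pool.Agent.Helper25K9.PC.IrrU

set_option autoImplicit false

open Finset Polynomial Pool.Agent.W432.WB Pool.Agent.W432.HK Pool.Agent.Y227.SO Pool.Agent.Y227.SS
open Pool.Agent.R340.SY (expo fuchs_int)
open Pool.Agent.Helper25K9.PC

/-!
# Irreducible operators: bounded relations among the differences of exponents away from one point

Let `L` be an irreducible Fuchsian operator of order `n ≥ 2` with rational exponents `e x l`, any number
of singular points `x` and arbitrary accessory parameters. Assume that the denominators of the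
differences `e x l - e x l'` and of the sums `∑ x, e x (κ x)` of one exponent for each point are `1` or
a prime number `q`, or more generally that they have no prime factor below an explicit bound `C` (in
terms of `n` and the number of points with nonintegral differences). We prove: if the reductions of
`L` have full bases of solutions for almost all primes
(or only for infinitely many primes in every residue class modulo a common denominator), then for every
point `j` the differences of the exponents at the points other than `j` satisfy a nontrivial relation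
modulo the integers, with integral coefficients of absolute values at most `101 n ^ 4 ((n - 1) k) ^ 4`,
where `k` is the number of these points with a nonintegral difference. The bound does not depend on `q`,
nor on the operator. Grothendieck's conjecture holds for all the other irreducible operators. For
arbitrary denominators we prove this up to rational numbers with denominators below `C`.

The relation is among the differences at the points other than `j` only, so it is not a consequence of
the relation of the result `BoundedRelations`, which expresses the sums `∑ x, e x (κ x)` by these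
differences; as `j` is arbitrary, there are at least two independent relations among the differences if
`q` is larger than the bound.

Proof. All the multiples `a e` with `a` prime to the denominators satisfy the strict inequalities for line
subbundles of stable bundles of degree zero, and the inequalities for semistable bundles. By the
second of them and a Fourier argument, modulo the integers `∑ x, e x (κ x)` is a combination of the
differences at the points other than `j` with small coefficients `ρ`. If there is no further relation,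
then there is a conjugate `a e` such that the differences `a (e x (l) - e x (κ x))`, `x ≠ j`, are very
close modulo the integers to prescribed small numbers (for a general denominator by an average over
the units and the evaluation of Ramanujan sums). We prescribe them such that the line bundle with
weights `a e x (κ x)`, corrected by `ρ` at each point, has a positive parabolic degree.
-/

namespace Pool.Agent.Results.MP_aa40d3_nt.IrreducibleRelations

/-- Let `L = ∑ b k ∂ ^ k` be an operator of order `n ≥ 2` with integral polynomial coefficients,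
Fuchsian, with finite singular points among the distinct algebraic numbers `α j`, `j = 1, …, m`, with
the rational exponents `e x l = expo lam phi x l` at the `m + 1` points `x` (the finite points `some j` and
infinity, `none`), and irreducible over the algebraic numbers. The accessory parameters are arbitrary.

Let `Y` be a set of points such that the `e x l - e x l'` are integers for all `x` not in `Y`, let `j` be
one of the points, let `r` be `n - 1` times the number of the elements of `Y` other than `j`, and let
`C = 2 * 10 ^ 12 (n r) ^ 16 (101 n ^ 4 r ^ 4) ^ (2 r) + 200`.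

(1) For exponents with arbitrary denominators, one of the following holds.

(A) For every common denominator `N` of the exponents there is an `a` prime to `N` such that for all
large primes `p` with `a p = -1` modulo `N` the reduction of `L` modulo `p` does not have a full basis
of rational solutions; in particular the open implication of the conjecture holds for `L`.

(B) For every choice `κ` of one exponent at each point there are integers `ρ x l` of absolute values at
most `4 n r` such that `∑ x, e x (κ x) - ∑ ρ x l (e x l - e x (κ x))` is not an integer, but has a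
denominator less than `C`; or there are integers `ρ x l` of absolute values at most
`101 n ^ 4 r ^ 4`, not all zero for the points `x` of `Y` other than `j` and for `l ≠ κ x`, such that
`∑ ρ x l (e x l - e x (κ x))` has a denominator less than `C`. The sums with `ρ x l` are over the
points `x` of `Y` other than `j` and over all `l`.

(2) Let `q` be a prime number, or an integer without prime factors less than `C`, such that
`q (e x l - e x l')` and `q ∑ x, e x (κ x)` are integers (for all points `x` and all `l`, `l'`, and for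
all choices `κ` of one exponent at each point). Then (A) holds, or for every choice `κ` there are
integers `ρ x l` of absolute values at most `101 n ^ 4 r ^ 4`, not all zero for the points `x` of `Y`
other than `j` and for `l ≠ κ x`, such that `∑ ρ x l (e x l - e x (κ x))` is an integer, the sum being
over the points `x` of `Y` other than `j` and over all `l`. -/
theorem result {m n : ℕ} (hm : 1 ≤ m) (hn : 2 ≤ n) (b : Fin (n + 1) → ℤ[X])
    (α : Fin m → AlgebraicClosure ℚ) (lam : Fin m → Fin n → ℚ) (phi : Fin n → ℚ)
    (hF : FuchsianWith b α lam phi) (hirr : ¬ Reducible b) (e : Option (Fin m) → Fin n → ℚ)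
    (he : ∀ x l, e x l = expo lam phi x l)
    (Y : Finset (Option (Fin m))) (hY : ∀ x, x ∉ Y → ∀ l l', (e x l - e x l').den = 1)
    (j : Option (Fin m)) (r C : ℕ) (hr : r = (n - 1) * (Y.erase j).card)
    (hC : C = 2 * 10 ^ 12 * (n * r) ^ 16 * (101 * n ^ 4 * r ^ 4) ^ (2 * r) + 200) :
    (((∀ N, CommonDen lam phi N → BadClass b N) ∧ (Cond b → FullAlg b)) ∨
      ∀ κ : Option (Fin m) → Fin n,
        (∃ ρ : Option (Fin m) → Fin n → ℤ, (∀ x l, |ρ x l| ≤ 4 * n * r) ∧
          1 < (∑ x, e x (κ x) - ∑ x ∈ Y.erase j, ∑ l, ρ x l * (e x l - e x (κ x))).den ∧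
          (∑ x, e x (κ x) - ∑ x ∈ Y.erase j, ∑ l, ρ x l * (e x l - e x (κ x))).den < C) ∨
        ∃ ρ : Option (Fin m) → Fin n → ℤ, (∃ x ∈ Y.erase j, ∃ l, l ≠ κ x ∧ ρ x l ≠ 0) ∧
          (∀ x l, |ρ x l| ≤ 101 * n ^ 4 * r ^ 4) ∧
          (∑ x ∈ Y.erase j, ∑ l, ρ x l * (e x l - e x (κ x))).den < C) ∧
    ∀ q : ℕ, (q.Prime ∨ ∀ p : ℕ, p.Prime → p ∣ q → C ≤ p) →
      (∀ x l l', ((q : ℚ) * (e x l - e x l')).den = 1) →
      (∀ κ : Option (Fin m) → Fin n, ((q : ℚ) * ∑ x, e x (κ x)).den = 1) →
      (((∀ N, CommonDen lam phi N → BadClass b N) ∧ (Cond b → FullAlg b)) ∨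
        ∀ κ : Option (Fin m) → Fin n, ∃ ρ : Option (Fin m) → Fin n → ℤ,
          (∃ x ∈ Y.erase j, ∃ l, l ≠ κ x ∧ ρ x l ≠ 0) ∧
          (∀ x l, |ρ x l| ≤ 101 * n ^ 4 * r ^ 4) ∧
          (∑ x ∈ Y.erase j, ∑ l, ρ x l * (e x l - e x (κ x))).den = 1) := by
  classical
  by_cases h : ∀ N, CommonDen lam phi N → BadClass b N
  · have hA : (∀ N, CommonDen lam phi N → BadClass b N) ∧ (Cond b → FullAlg b) := by
      refine ⟨h, fun hc => ?_⟩
      obtain ⟨N, hN⟩ := exists_commonDen lam phi
      obtain ⟨a, ha, P₀, hP₀⟩ := h N hN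
      obtain ⟨p, hp1, hp2, hp3, hp4⟩ := cond_infinite hc hN.1 ha P₀
      exact absurd hp4 (hP₀ p hp1 hp2 hp3)
    exact ⟨Or.inl hA, fun _ _ _ _ => Or.inl hA⟩
  push Not at h
  obtain ⟨N, hN, hbad⟩ := h
  have hn1 : 1 ≤ n := by omega
  obtain ⟨-, H⟩ := lineIneq_of_good hm hn1 hF hN hbad
  have hee : e = expo lam phi := by
    funext x l
    exact he x l
  obtain ⟨F, hFu⟩ := fuchs_int hm hn hF
  have Hst : ∀ a : ℤ, IsCoprime a (N : ℤ) → LineStrict fun x l => (a : ℚ) * e x l := by
    intro a ha β hβ
    have hst : StableWeights ℂ (fun j l => (a : ℝ) * lam j l) (fun l => (a : ℝ) * phi l) := by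
      by_contra hst
      exact hbad ⟨a, ha, bad_class (by omega) (by omega) hF hN a (Or.inr ⟨hirr, hst⟩)⟩
    have h3 := floor_lt hn a F hFu hst β hβ
    have h4 : ((∑ x, ∑ l, ⌊(a : ℚ) * expo lam phi x l - β x⌋ : ℤ) : ℚ) ≤ ((a * F - n : ℤ) : ℚ) := by
      exact_mod_cast h3
    have h5 : ∑ x, ∑ l, (a : ℚ) * expo lam phi x l = a * F := by
      rw [← sum_expo hFu, mul_sum]
      exact sum_congr rfl fun x _ => by rw [mul_sum]
    push_cast at h4
    simp only [hee]
    rw [h5]
    linarith
  rw [← hee] at H
  have hden : ∀ x l, ∃ z : ℤ, (N : ℚ) * e x l = z := by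
    intro x l
    rw [he]
    rcases x with _ | x
    · obtain ⟨z, hz⟩ := hN.2.2 l
      exact ⟨-z, by simp only [expo]; push_cast; rw [← hz]; ring⟩
    · exact hN.2.1 x l
  have hY' : ∀ x, x ∉ Y → ∀ l l', ∃ z : ℤ, e x l - e x l' = z :=
    fun x hx l l' => (den_one_iff _).1 (hY x hx l l')
  -- the constants
  have hibC : ib n r < C := by
    rw [hC]
    unfold ib
    omega
  have hrbC : rb n r ≤ C := by
    rw [hC]
    unfold rb
    rcases Nat.eq_zero_or_pos r with h0 | h0
    · rw [h0]
      simp
    · have hnr : 1 ≤ n * r := Nat.mul_pos (by omega) h0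
      have e1 : 4 * n * r + 1 ≤ 5 * (n * r) := by
        have : 4 * n * r = 4 * (n * r) := by ring
        omega
      have e2 : 5 * (n * r) ≤ 101 * n ^ 4 * r ^ 4 := by
        have e3 : n * r ≤ (n * r) ^ 4 := Nat.le_self_pow (by norm_num) _
        have e4 : 101 * n ^ 4 * r ^ 4 = 101 * (n * r) ^ 4 := by ring
        rw [e4]
        omega
      have e5 : (4 * n * r + 1) ^ (2 * r + 4) ≤
          (5 * (n * r)) ^ 4 * (101 * n ^ 4 * r ^ 4) ^ (2 * r) := by
        calc (4 * n * r + 1) ^ (2 * r + 4) = (4 * n * r + 1) ^ 4 * (4 * n * r + 1) ^ (2 * r) := by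
              rw [pow_add, mul_comm]
          _ ≤ _ := Nat.mul_le_mul (Nat.pow_le_pow_left e1 4)
              (Nat.pow_le_pow_left (e1.trans e2) (2 * r))
      have e6 : 200 * (5 * (n * r)) ^ 4 ≤ 2 * 10 ^ 12 * (n * r) ^ 16 := by
        have e7 : (n * r) ^ 4 ≤ (n * r) ^ 16 := Nat.pow_le_pow_right hnr (by norm_num)
        have e8 : 200 * (5 * (n * r)) ^ 4 = 125000 * (n * r) ^ 4 := by ring
        rw [e8]
        omega
      calc 200 * (4 * n * r + 1) ^ (2 * r + 4)
          ≤ 200 * ((5 * (n * r)) ^ 4 * (101 * n ^ 4 * r ^ 4) ^ (2 * r)) := Nat.mul_le_mul_left _ e5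
        _ = (200 * (5 * (n * r)) ^ 4) * (101 * n ^ 4 * r ^ 4) ^ (2 * r) := by ring
        _ ≤ (2 * 10 ^ 12 * (n * r) ^ 16) * (101 * n ^ 4 * r ^ 4) ^ (2 * r) :=
            Nat.mul_le_mul_right _ e6
        _ ≤ _ := Nat.le_add_right _ _
  have gen : ∀ κ : Option (Fin m) → Fin n,
        (∃ ρ : Option (Fin m) → Fin n → ℤ, (∀ x l, |ρ x l| ≤ 4 * n * r) ∧
          1 < (∑ x, e x (κ x) - ∑ x ∈ Y.erase j, ∑ l, ρ x l * (e x l - e x (κ x))).den ∧
          (∑ x, e x (κ x) - ∑ x ∈ Y.erase j, ∑ l, ρ x l * (e x l - e x (κ x))).den < C) ∨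
        ∃ ρ : Option (Fin m) → Fin n → ℤ, (∃ x ∈ Y.erase j, ∃ l, l ≠ κ x ∧ ρ x l ≠ 0) ∧
          (∀ x l, |ρ x l| ≤ 101 * n ^ 4 * r ^ 4) ∧
          (∑ x ∈ Y.erase j, ∑ l, ρ x l * (e x l - e x (κ x))).den < C := by
    intro κ
    rcases effective_relation hn1 e hN.1 hden H Y hY' j hr κ with
      ⟨ρ, hρ1, hρ2⟩ | ⟨ρ, hρ1, hρ2, hρ3⟩
    · by_cases h1 : (∑ x, e x (κ x) - ∑ x ∈ Y.erase j, ∑ l, ρ x l * (e x l - e x (κ x))).den = 1
      · obtain ⟨w, hw⟩ := (den_one_iff _).1 h1
        obtain ⟨σ, hσ1, hσ2, hσ3⟩ := irr_relation_unit hn e hN.1 hden H Hst Y hY' j κ ρ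
          (fun x l => (hρ1 x l).trans (le_of_eq (by rw [hr]; push_cast; ring))) hw
        refine Or.inr ⟨σ, hσ1, fun x l => (hσ2 x l).trans (le_of_eq ?_), ?_⟩
        · rw [hr]
          push_cast
          ring
        · rw [← hr] at hσ3
          omega
      · refine Or.inl ⟨ρ, hρ1, ?_, ?_⟩
        · have := (∑ x, e x (κ x) - ∑ x ∈ Y.erase j, ∑ l, ρ x l * (e x l - e x (κ x))).den_pos
          omega
        · omega
    · right
      have hnz : ∃ x ∈ Y.erase j, ∃ l, l ≠ κ x ∧ ρ x l ≠ 0 := by
        by_contra hcon
        push Not at hcon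
        have h0 : ∑ x ∈ Y.erase j, ∑ l, (ρ x l : ℚ) * (e x l - e x (κ x)) = 0 := by
          refine sum_eq_zero fun x hx => sum_eq_zero fun l _ => ?_
          by_cases hl : l = κ x
          · rw [hl, sub_self, mul_zero]
          · rw [hcon x hx l hl]
            simp
        rw [h0] at hρ2
        simp at hρ2
      refine ⟨ρ, hnz, fun x l => (hρ1 x l).trans ?_, ?_⟩
      · obtain ⟨x₀, hx₀, -⟩ := hnz
        have hrpos : 1 ≤ r := by
          rw [hr]
          exact Nat.mul_pos (by omega) (card_pos.2 ⟨x₀, hx₀⟩)
        have hnr : 1 ≤ n * r := Nat.mul_pos (by omega) hrpos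
        have e3 : n * r ≤ (n * r) ^ 4 := Nat.le_self_pow (by norm_num) _
        have e4 : 4 * n * r + 1 ≤ 101 * n ^ 4 * r ^ 4 := by
          have e5 : 101 * n ^ 4 * r ^ 4 = 101 * (n * r) ^ 4 := by ring
          have e6 : 4 * n * r = 4 * (n * r) := by ring
          rw [e5, e6]
          omega
        exact_mod_cast e4
      · omega
  refine ⟨Or.inr gen, fun q hq h1 h2 => Or.inr fun κ => ?_⟩
  have g1 : ∀ x l l', ∃ z : ℤ, (q : ℚ) * (e x l - e x l') = z :=
    fun x l l' => (den_one_iff _).1 (h1 x l l')
  have g2 : ∀ κ : Option (Fin m) → Fin n, ∃ z : ℤ, (q : ℚ) * ∑ x, e x (κ x) = z :=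
    fun κ => (den_one_iff _).1 (h2 κ)
  rcases hq with hq | hq
  · obtain ⟨ρ, hρ0, hρ1, hρ2⟩ := irr_relation hn e hq
      (lineIneq_all hn1 e hq hN.1 H g1 g2) (lineStrict_all hn1 e hq hN.1 Hst g1 g2) g1 g2 Y
      hY' j κ
    refine ⟨ρ, hρ0, fun x l => (hρ1 x l).trans (le_of_eq ?_), (den_one_iff _).2 hρ2⟩
    rw [hr]
    push_cast
    ring
  · have h200 : 200 ≤ C := by
      rw [hC]
      exact Nat.le_add_left _ _
    have hq0 : q ≠ 0 := by
      rintro rfl
      have h3 := hq 2 Nat.prime_two (dvd_zero 2)
      omega
    have hsmall : ∀ y : ℚ, (∃ z : ℤ, (q : ℚ) * y = z) → y.den < C → y.den = 1 := by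
      rintro y ⟨z, hz⟩ hy
      by_contra hne
      obtain ⟨p, hp, hpd⟩ := Nat.exists_prime_and_dvd hne
      have h3 : y.den ∣ q := by
        have h4 : y = (z : ℚ) / ((q : ℤ) : ℚ) := by
          rw [eq_div_iff (by exact_mod_cast hq0), ← hz]
          push_cast
          ring
        have h5 := Rat.den_dvd z (q : ℤ)
        rw [Rat.divInt_eq_div, ← h4] at h5
        exact_mod_cast h5
      have h4 := hq p hp (hpd.trans h3)
      have h5 := Nat.le_of_dvd y.den_pos hpd
      omega
    have hint : ∀ ρ : Option (Fin m) → Fin n → ℤ, ∃ z : ℤ,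
        (q : ℚ) * ∑ x ∈ Y.erase j, ∑ l, ρ x l * (e x l - e x (κ x)) = z := by
      intro ρ
      choose z hz using fun x l => g1 x l (κ x)
      refine ⟨∑ x ∈ Y.erase j, ∑ l, ρ x l * z x l, ?_⟩
      push_cast
      rw [mul_sum]
      refine sum_congr rfl fun x _ => ?_
      rw [mul_sum]
      refine sum_congr rfl fun l _ => ?_
      rw [← hz x l]
      ring
    rcases gen κ with ⟨ρ, hρ1, hρ2, hρ3⟩ | ⟨ρ, hρ0, hρ1, hρ3⟩
    · have h6 := hsmall _ (by
        obtain ⟨z, hz⟩ := hint ρ
        obtain ⟨w, hw⟩ := g2 κ
        exact ⟨w - z, by push_cast; rw [mul_sub, hz, hw]⟩) hρ3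
      omega
    · exact ⟨ρ, hρ0, hρ1, hsmall _ (hint ρ) hρ3⟩

end Pool.Agent.Results.MP_aa40d3_nt.IrreducibleRelations
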